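import Pool.Agent.P8H13.GK.OneScale

/-!
# MP_f686a1_nt: almost all admissible sets, up to the full number of elements

There are arbitrarily large `X` such that for all `y` between `X` and `exp ((log X) ^ (3 / 2))` and all `k ≥ 1`, all but a
proportion `C k (log log X) ^ 2 / log X` of the admissible sets of `k` non-negative integers `≤ y` have at least
`y / exp (log X / log log X)` translates by positive integers `n ≤ y` consisting of primes only. Along these scales this
covers every `k` that is `o (log y / (log log y) ^ 2)` when `y` is a bounded power of `X`, in particular all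
`k ≤ (log y) ^ (1 - δ)`.
-/

set_option autoImplicit false

namespace Pool.Agent.Results.MP_f686a1_nt.AlmostAllSetsFullRange

open Finset

/-- admissible: for every prime some residue class contains no element of the set -/
def Admissible (A : Finset ℕ) : Prop := ∀ p : ℕ, p.Prime → ∃ r : ℕ, ∀ a ∈ A, ¬ a ≡ r [MOD p]

/-- the number of the positive integers `n ≤ y` such that all `n + a`, `a ∈ A`, are prime -/
noncomputable def translates (y : ℕ) (A : Finset ℕ) : ℕ := ((Icc 1 y).filter (fun n => ∀ a ∈ A, (n + a).Prime)).card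

open Classical in
/-- the admissible sets with `k` elements, all at most `y` -/
noncomputable def admissibleSets (y k : ℕ) : Finset (Finset ℕ) :=
  ((range (y + 1)).powersetCard k).filter (fun A => Admissible A)

/-- numerical facts for large `l` -/
lemma large (D : ℝ) (hD : 0 < D) : ∃ l0 : ℝ, ∀ l : ℝ, l0 ≤ l → 10 ≤ l ∧ 1 ≤ Real.log l ∧
    D * Real.log l ≤ l ^ (1 / 4 : ℝ) ∧ (10 : ℝ) ^ 8 * (2 * l ^ 2) ^ 10 ≤ Real.exp (l / 100) := by
  have e1 := Filter.eventually_ge_atTop (10 : ℝ)
  have e2 := Real.tendsto_log_atTop.eventually (Filter.eventually_ge_atTop (1 : ℝ))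
  have e3 := (isLittleO_log_rpow_atTop (show (0 : ℝ) < 1 / 4 by norm_num)).bound (show (0 : ℝ) < 1 / D by positivity)
  have e4 := (Real.tendsto_pow_mul_exp_neg_atTop_nhds_zero 20).comp (Filter.tendsto_id.atTop_div_const (show (0 : ℝ) < 100 by norm_num))
  have e4' := e4.eventually (gt_mem_nhds (show (0 : ℝ) < 1 / (10 ^ 8 * 2 ^ 10 * 100 ^ 20) by positivity))
  have h := e1.and (e2.and (e3.and e4'))
  rw [Filter.eventually_atTop] at h
  obtain ⟨l0, hl0⟩ := h
  refine ⟨l0, fun l hl => ?_⟩
  obtain ⟨f1, f2, f3, f4⟩ := hl0 l hl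
  have hlpos : 0 < l := by linarith
  refine ⟨f1, f2, ?_, ?_⟩
  · rw [Real.norm_of_nonneg (by linarith), Real.norm_of_nonneg (by positivity), div_mul_eq_mul_div, one_mul, le_div_iff₀ hD] at f3
    linarith
  · simp only [Function.comp, id] at f4
    rw [Real.exp_neg, ← div_eq_mul_inv, div_lt_div_iff₀ (Real.exp_pos _) (by positivity)] at f4
    calc (10 : ℝ) ^ 8 * (2 * l ^ 2) ^ 10 = (l / 100) ^ 20 * (10 ^ 8 * 2 ^ 10 * 100 ^ 20) := by
          rw [mul_pow, ← pow_mul, div_pow]
          field_simp
      _ ≤ _ := by linarith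

/-- **Almost all admissible sets, up to the full number of elements.** -/
theorem result : ∃ C : ℝ, 0 < C ∧ ∀ X₀ : ℝ, ∃ X : ℝ, X₀ ≤ X ∧
    ∀ y : ℕ, X ≤ y → Real.log y ≤ Real.log X ^ (3 / 2 : ℝ) → ∀ k : ℕ, 1 ≤ k →
      (((admissibleSets y k).filter
        (fun A => (translates y A : ℝ) < y / Real.exp (Real.log X / Real.log (Real.log X)))).card : ℝ) ≤
        C * k * Real.log (Real.log X) ^ 2 / Real.log X * (admissibleSets y k).card := by
  classical
  obtain ⟨c1, hc1, hmain⟩ := Pool.Agent.P8H13.GK.one_scale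
  set D : ℝ := 1000 + 3 / c1 with hD
  have hD0 : 1000 ≤ D := by
    have : 0 ≤ 3 / c1 := by positivity
    linarith
  have hDc : 3 ≤ c1 * D := by
    rw [hD, mul_add]
    have h1 : c1 * (3 / c1) = 3 := by field_simp
    have h2 : 0 ≤ c1 * 1000 := by positivity
    linarith
  obtain ⟨l1, h1⟩ := large D (by linarith)
  refine ⟨48300 * D, by linarith, fun X₀ => ?_⟩
  obtain ⟨l, hl, hone⟩ := hmain (max l1 |X₀|)
  have hl1 : l1 ≤ l := (le_max_left _ _).trans hl
  have hl2 : |X₀| ≤ l := (le_max_right _ _).trans hl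
  obtain ⟨f0, f1, f2, f3⟩ := h1 l hl1
  have hlpos : 0 < l := by linarith
  set K : ℝ := D * l * Real.log l with hK
  have hKl : 1000 * l ≤ K := by
    calc 1000 * l = 1000 * l * 1 := by ring
      _ ≤ D * l * Real.log l := by gcongr
  have hK0 : 0 < K := by linarith
  have hK1 : K ≤ l ^ (5 / 4 : ℝ) := by
    calc K = l * (D * Real.log l) := by rw [hK]; ring
      _ ≤ l * l ^ (1 / 4 : ℝ) := mul_le_mul_of_nonneg_left f2 hlpos.le
      _ = l ^ (1 : ℝ) * l ^ (1 / 4 : ℝ) := by rw [Real.rpow_one]
      _ = _ := by rw [← Real.rpow_add hlpos]; norm_num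
  have hlogK1 : Real.log l ≤ Real.log K := Real.log_le_log hlpos (by linarith)
  have hlogK2 : Real.log K ≤ 5 / 4 * Real.log l := by
    have := Real.log_le_log hK0 hK1
    rwa [Real.log_rpow hlpos] at this
  have hlogK0 : 0 < Real.log K := by linarith
  refine ⟨Real.exp K, ?_, ?_⟩
  · have h5 := le_abs_self X₀
    have h6 := Real.add_one_le_exp K
    linarith
  intro y hy1 hy2 k hk
  rw [Real.log_exp] at hy2 ⊢
  have hk1 : (1 : ℝ) ≤ k := by exact_mod_cast hk
  have hy0 : (0 : ℝ) < y := (Real.exp_pos _).trans_le hy1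
  have hlogy1 : K ≤ Real.log y := by rw [Real.le_log_iff_exp_le hy0]; exact hy1
  have hlogy2 : Real.log y ≤ l ^ 2 := by
    refine hy2.trans ?_
    calc K ^ (3 / 2 : ℝ) ≤ (l ^ (5 / 4 : ℝ)) ^ (3 / 2 : ℝ) := Real.rpow_le_rpow hK0.le hK1 (by norm_num)
      _ = l ^ (15 / 8 : ℝ) := by rw [← Real.rpow_mul hlpos.le]; norm_num
      _ ≤ l ^ (2 : ℝ) := Real.rpow_le_rpow_of_exponent_le (by linarith) (by norm_num)
      _ = l ^ 2 := by exact_mod_cast Real.rpow_natCast l 2
  have hlog2 := Real.log_two_lt_d9
  have hlog20 : 0 < Real.log 2 := Real.log_pos (by norm_num)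
  have hlog4 : Real.log 4 = 2 * Real.log 2 := by
    rw [show (4 : ℝ) = 2 ^ 2 by norm_num, Real.log_pow]; norm_num
  have hlog4y : Real.log (4 * y) ≤ 2 * l ^ 2 := by
    rw [Real.log_mul (by norm_num) hy0.ne', hlog4]
    nlinarith
  have hlog2y : Real.log (2 * y) ≤ 2 * l ^ 2 := by
    rw [Real.log_mul (by norm_num) hy0.ne']
    nlinarith
  have hlog2y0 : 0 < Real.log (2 * y) := by
    rw [Real.log_mul (by norm_num) hy0.ne']
    linarith
  have hlog4y0 : 0 ≤ Real.log (4 * y) := by
    rw [Real.log_mul (by norm_num) hy0.ne', hlog4]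
    linarith
  have hll : Real.log (2 * l ^ 2) ≤ 3 * Real.log l := by
    have h5 : 2 * l ^ 2 ≤ l ^ 3 := by
      have : l ^ 3 = l * l ^ 2 := by ring
      rw [this]
      exact mul_le_mul_of_nonneg_right (by linarith) (by positivity)
    calc Real.log (2 * l ^ 2) ≤ Real.log (l ^ 3) := Real.log_le_log (by positivity) h5
      _ = _ := by rw [Real.log_pow]; norm_num
  have hcard : ((admissibleSets y k).filter
      (fun A => (translates y A : ℝ) < y / Real.exp (K / Real.log K))).card ≤ (admissibleSets y k).card :=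
    card_le_card (filter_subset _ _)
  have hcard' : (((admissibleSets y k).filter
      (fun A => (translates y A : ℝ) < y / Real.exp (K / Real.log K))).card : ℝ) ≤ (admissibleSets y k).card := by
    exact_mod_cast hcard
  have hlogl0 : 0 < Real.log l := by linarith
  -- the constant
  have hcst : 48300 * (k / l) ≤ 48300 * D * k * Real.log K ^ 2 / K := by
    have g1 : Real.log l ≤ Real.log K ^ 2 := by nlinarith
    have g2 : 48300 * D * k * Real.log l / K = 48300 * (k / l) := by
      rw [hK]
      field_simp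
    rw [← g2]
    gcongr
  rcases le_or_gt (k : ℝ) (l / (30 * Real.log l)) with hkk | hkk
  swap
  · refine hcard'.trans (le_mul_of_one_le_left (Nat.cast_nonneg _) ?_)
    have g1 : Real.log l ^ 2 ≤ Real.log K ^ 2 := pow_le_pow_left₀ hlogl0.le hlogK1 2
    have g2 : 48300 * D * (l / (30 * Real.log l)) * Real.log l ^ 2 / K = 1610 := by
      rw [hK]
      field_simp
      norm_num
    have g3 : 48300 * D * (l / (30 * Real.log l)) * Real.log l ^ 2 / K ≤ 48300 * D * k * Real.log K ^ 2 / K := by
      gcongr
    linarith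
  have h7 := hone y ?_ ?_ ?_ ?_ k hk ?_
  · have h5 : ((admissibleSets y k).filter
        (fun A => (translates y A : ℝ) < y / Real.exp (K / Real.log K))).card ≤
        (((powersetCard k (range (y + 1))).filter
          (fun A => Pool.Agent.P8H13.PK.Adm A ∧ (Pool.Agent.P8H13.PK.cnt y A : ℝ) < y * Real.exp (-l)))).card := by
      apply card_le_card
      intro A hA
      unfold admissibleSets at hA
      rw [mem_filter, mem_filter] at hA
      rw [mem_filter]
      refine ⟨hA.1.1, hA.1.2, lt_of_lt_of_le hA.2 ?_⟩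
      rw [div_eq_mul_inv, ← Real.exp_neg]
      apply mul_le_mul_of_nonneg_left _ hy0.le
      apply Real.exp_le_exp.2
      have g1 : l ≤ K / Real.log K := by
        rw [le_div_iff₀ hlogK0]
        calc l * Real.log K ≤ l * (5 / 4 * Real.log l) := mul_le_mul_of_nonneg_left hlogK2 hlpos.le
          _ ≤ D * l * Real.log l := by
              have : 0 ≤ l * Real.log l := by positivity
              nlinarith
      linarith
    have h6 : ((powersetCard k (range (y + 1))).filter (fun A => Pool.Agent.P8H13.PK.Adm A)).card = (admissibleSets y k).card := by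
      unfold admissibleSets
      congr 1
    rw [h6] at h7
    have h8 : (((admissibleSets y k).filter
        (fun A => (translates y A : ℝ) < y / Real.exp (K / Real.log K))).card : ℝ) ≤
        48300 * (k / l) * (admissibleSets y k).card := le_trans (by exact_mod_cast h5) h7
    refine h8.trans ?_
    exact mul_le_mul_of_nonneg_right hcst (Nat.cast_nonneg _)
  · exact le_trans (Real.exp_le_exp.2 (by linarith)) hy1
  · refine le_trans ?_ f3
    apply mul_le_mul_of_nonneg_left _ (by norm_num)
    exact pow_le_pow_left₀ hlog4y0 hlog4y 10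
  · have : 0 ≤ l ^ 2 := by positivity
    linarith
  · have g1 : Real.log (Real.log (2 * y)) ≤ 3 * Real.log l := (Real.log_le_log hlog2y0 hlog2y).trans hll
    calc l * Real.log (Real.log (2 * y)) ≤ l * (3 * Real.log l) := mul_le_mul_of_nonneg_left g1 hlpos.le
      _ = 3 * (l * Real.log l) := by ring
      _ ≤ (c1 * D) * (l * Real.log l) := mul_le_mul_of_nonneg_right hDc (by positivity)
      _ = c1 * K := by rw [hK]; ring
      _ ≤ c1 * Real.log y := mul_le_mul_of_nonneg_left hlogy1 hc1.le
  · have h5 : (0 : ℝ) < 2 * l ^ 2 := by positivity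
    calc Real.log (4 * y) ^ (2 * k) ≤ (2 * l ^ 2) ^ (2 * k) := pow_le_pow_left₀ hlog4y0 hlog4y _
      _ = Real.exp (k * (2 * Real.log (2 * l ^ 2))) := by
          rw [← Real.exp_log h5, ← Real.exp_nat_mul, Real.log_exp]
          congr 1
          push_cast
          ring
      _ ≤ Real.exp (l / 5) := by
          apply Real.exp_le_exp.2
          rw [le_div_iff₀ (by positivity)] at hkk
          have g1 : (k : ℝ) * (2 * Real.log (2 * l ^ 2)) ≤ k * (2 * (3 * Real.log l)) := by gcongr
          linarith

end Pool.Agent.Results.MP_f686a1_nt.AlmostAllSetsFullRange
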