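import Pool.Agent.P8H13.DS.Set
import Pool.Agent.P8H13.DT.Nrm
import Pool.Agent.N646.TP.Main
import Pool.Agent.P8H6.Trip.Main

/-!
# Szemerédi's theorem, with small differences, in the sets of the prime translates of most tuples of a thick set of shifts

For a set `G` of `k + 1` shifts let `Translates x G` be the set of the `n ≤ x` for which all `n + g`, `g ∈ G`, are prime.
`Szemeredi κ η m B x G` says that this set has at least `κ x / (log x) ^ (k + 1)` elements and that in EVERY subset `U`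
of it all but at most `η |Translates x G|` of the elements are first terms of progressions of `m` elements of `U` with a
difference `≤ (log x) ^ B`.

(1) Every set `V ⊆ [0, x]` of integers congruent to each other modulo a constant `M` which is thick (it contains a
positive proportion of the integers at a distance of at most `λ log x` from it) splits, up to `ε |V|` elements, into
boundedly many classes `A_j` such that `Szemeredi` holds for almost all the `(k + 1)`-tuples of elements of each `A_j`.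

(2) At every scale `Y` between `λ log x` and `x / 100` almost every admissible set of `T > 18 M / 5` shifts in `[1, Y]`
contains `M + 1` shifts for which `Szemeredi` holds for all the subsets of `k + 1` elements.

Method: the two theorems without the second part of `Szemeredi` (`Pool.Agent.N646.TP.main`, starting files, and
`Pool.Agent.P8H6.Trip.main` by helper6); the relative Szemerédi theorem with small differences, uniformly in the linear
forms (`Pool.Agent.Y840.PT` of the starting files, after Tao and Ziegler; used in the form `P8H13.CA.one_U`); and a bound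
for the number of the tuples of elements of a thick set with a large singular series (`P8H13.DS`), which needs the
average of `d / φ(d)` over the differences `d` of the elements of intervals of length `λ log x` at arbitrary places.
-/

set_option autoImplicit false

namespace Pool.Agent.Results.MP_f686a1_nt.DenseSubsetsOfTranslates

open Finset Filter
open Pool.Agent.H387R2.Uni (CT)

/-- the integers `1 ≤ n ≤ x` for which all `n + g`, `g ∈ G`, are prime -/
def Translates (x : ℕ) (G : Finset ℕ) : Set ℕ := {n : ℕ | 1 ≤ n ∧ n ≤ x ∧ ∀ g ∈ G, (n + g).Prime}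

/-- the first terms `a` of progressions `a, a + D, ..., a + (m - 1) D` in `U` with a difference `1 ≤ D ≤ Q` -/
def First (m : ℕ) (Q : ℝ) (U : Set ℕ) : Set ℕ :=
  {a | a ∈ U ∧ ∃ D : ℕ, 1 ≤ D ∧ (D : ℝ) ≤ Q ∧ ∀ j < m, a + j * D ∈ U}

/-- `Translates x G` has at least `κ x / (log x) ^ |G|` elements, and in every subset `U` of it all but at most
`η |Translates x G|` elements are first terms of `m`-term progressions in `U` with a difference `≤ (log x) ^ B`. -/
def Szemeredi (κ η : ℝ) (m B x : ℕ) (G : Finset ℕ) : Prop :=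
  κ * (x / Real.log x ^ G.card) ≤ ((Translates x G).ncard : ℝ) ∧
    ∀ U ⊆ Translates x G, ((U \ First m (Real.log x ^ B) U).ncard : ℝ) ≤ η * ((Translates x G).ncard : ℝ)

/-- the number of the integers `n ≥ 0` at distance at most `L` from `V` -/
noncomputable def near (V : Finset ℕ) (L : ℝ) : ℕ :=
  {n : ℕ | ∃ v ∈ V, |(n : ℝ) - v| ≤ L}.ncard

/-- the number of the `y ∈ A ^ (k + 1)` which have two equal entries or whose set of entries does not have the property
`Szemeredi κ η m B x` -/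
noncomputable def exceptions (k : ℕ) (κ η : ℝ) (m B x : ℕ) (A : Finset ℕ) : ℕ :=
  {y : Fin (k + 1) → ℕ | (∀ i, y i ∈ A) ∧
    ¬ (Function.Injective y ∧ Szemeredi κ η m B x (univ.image y))}.ncard

/-- for every prime `p` there is `n` such that no `n + h`, `h ∈ H`, is divisible by `p` -/
def Admissible (H : Finset ℕ) : Prop := ∀ p : ℕ, p.Prime → ∃ n : ℤ, ∀ h ∈ H, ¬ (p : ℤ) ∣ n + h

theorem translates_finite (x : ℕ) (G : Finset ℕ) : (Translates x G).Finite :=
  (Set.finite_le_nat x).subset fun _ hn => hn.2.1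

/-- For ALL sets of `k + 1` shifts: few elements of a set of prime translates begin no progression in it. -/
theorem part0 (k m : ℕ) (ρ : ℝ) (hρ : 0 < ρ) : ∃ B x₀ : ℕ, ∀ x : ℕ, x₀ ≤ x → ∀ G : Finset ℕ, G.card = k + 1 →
    ∀ U ⊆ Translates x G, ((U \ First m (Real.log x ^ B) U).ncard : ℝ) ≤
      ρ * ((CT G + 1) * (x / Real.log x ^ (k + 1))) := by
  classical
  obtain ⟨B, x₀, h⟩ := Pool.Agent.P8H13.CA.one_U (k + 1) (m + 1) ρ hρ
  have hev : ∀ᶠ x : ℕ in atTop, ((k + 1 : ℕ) : ℝ) ≤ ρ * ((x : ℝ) / Real.log x ^ (k + 1)) := by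
    have h1 : Tendsto (fun x : ℝ => x / Real.log x ^ (k + 1)) atTop atTop := by
      have h2 := Pool.Agent.Y840.PT.sqrt_small (k + 1) 1 one_pos
      refine tendsto_atTop_mono' atTop ?_ (Real.tendsto_sqrt_atTop)
      filter_upwards [h2] with x hx
      rw [one_mul] at hx
      exact hx
    exact ((h1.comp (tendsto_natCast_atTop_atTop (R := ℝ))).const_mul_atTop hρ).eventually_ge_atTop
      ((k + 1 : ℕ) : ℝ)
  obtain ⟨x₁, hx₁⟩ := eventually_atTop.1 hev
  refine ⟨B, max ⌈x₀⌉₊ x₁, fun x hx G hG U hU => ?_⟩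
  have hxa : x₀ ≤ x := (Nat.le_ceil _).trans (by exact_mod_cast (le_max_left _ _).trans hx)
  have hxb := hx₁ x ((le_max_right _ _).trans hx)
  have hfin : (U \ First m (Real.log x ^ B) U).Finite :=
    ((translates_finite x G).subset hU).subset Set.sdiff_subset
  obtain ⟨V, hV⟩ : ∃ V : Finset ℕ, V = hfin.toFinset := ⟨_, rfl⟩
  have hVmem : ∀ n ∈ V, n ∈ U ∧ n ∉ First m (Real.log x ^ B) U := by
    intro n hn
    rw [hV, Set.Finite.mem_toFinset] at hn
    exact hn
  have hcard : (U \ First m (Real.log x ^ B) U).ncard = V.card := by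
    rw [Set.ncard_eq_toFinset_card _ hfin, hV]
  have hVP : V ⊆ Pool.Agent.Y840.PT.Pts (x : ℝ) G := by
    intro n hn
    obtain ⟨h1, h2, h3⟩ := hU (hVmem n hn).1
    unfold Pool.Agent.Y840.PT.Pts
    rw [mem_filter, mem_Icc, Nat.floor_natCast]
    exact ⟨⟨h1, h2⟩, h3⟩
  rw [hcard]
  have hxq : (0 : ℝ) ≤ (x : ℝ) / Real.log x ^ (k + 1) := by positivity
  by_contra hlt
  rw [not_le] at hlt
  by_cases hadm : Pool.Agent.H387R2.Uni.Adm G
  · have hCT := (Pool.Agent.TH891.SG.CT_pos_iff G).2 hadm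
    obtain ⟨b, D, hD1, hD2, hD3⟩ := h x hxa G hG hCT V hVP (by
      refine le_trans ?_ hlt.le
      refine mul_le_mul_of_nonneg_left ?_ hρ.le
      exact mul_le_mul_of_nonneg_right (by linarith) hxq)
    have h5 := hD3 0 (by omega)
    rw [zero_mul, add_zero] at h5
    obtain ⟨h6, h7⟩ := hVmem b h5
    exact h7 ⟨h6, D, hD1, hD2, fun j hj => (hVmem _ (hD3 j (by omega))).1⟩
  · have h1 := (card_le_card hVP).trans (Pool.Agent.P8H13.DT.Pts_small hadm (x : ℝ))
    rw [hG] at h1
    have h2 : (V.card : ℝ) ≤ ((k + 1 : ℕ) : ℝ) := by exact_mod_cast h1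
    have h3 : 0 ≤ CT G := Pool.Agent.H387R2.Uni.CT_nonneg _
    have h4 : ρ * ((x : ℝ) / Real.log x ^ (k + 1)) ≤ ρ * ((CT G + 1) * (x / Real.log x ^ (k + 1))) := by
      refine mul_le_mul_of_nonneg_left ?_ hρ.le
      nlinarith
    linarith

/-- the property `Szemeredi` for all sets with a bounded singular series and a number of prime translates of the right
order of magnitude -/
theorem key (k m : ℕ) (κ η A : ℝ) (hκ : 0 < κ) (hη : 0 < η) (hA : 0 < A) : ∃ B x₀ : ℕ, ∀ x : ℕ, x₀ ≤ x →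
    ∀ G : Finset ℕ, G.card = k + 1 → CT G ≤ A → κ * (x / Real.log x ^ (k + 1)) ≤ ((Translates x G).ncard : ℝ) →
    Szemeredi κ η m B x G := by
  obtain ⟨B, x₀, h⟩ := part0 k m (η * κ / (A + 1)) (by positivity)
  refine ⟨B, x₀, fun x hx G hG hCT hcount => ⟨by rw [hG]; exact hcount, fun U hU => ?_⟩⟩
  refine (h x hx G hG U hU).trans ?_
  have hq : (0 : ℝ) ≤ (x : ℝ) / Real.log x ^ (k + 1) := by positivity
  calc η * κ / (A + 1) * ((CT G + 1) * (x / Real.log x ^ (k + 1)))
      ≤ η * κ / (A + 1) * ((A + 1) * (x / Real.log x ^ (k + 1))) := by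
        refine mul_le_mul_of_nonneg_left ?_ (by positivity)
        exact mul_le_mul_of_nonneg_right (by linarith) hq
    _ = η * (κ * (x / Real.log x ^ (k + 1))) := by field_simp
    _ ≤ _ := mul_le_mul_of_nonneg_left hcount hη.le

open Classical in
/-- (1) thick sets of shifts -/
theorem part1 (k : ℕ) (ε : ℝ) (hε : 0 < ε) : ∃ M R : ℕ, 1 ≤ M ∧ ∀ θ lam : ℝ, 0 < θ → 0 < lam →
    ∃ κ : ℝ, 0 < κ ∧ ∀ (m : ℕ) (η : ℝ), 0 < η → ∃ B X : ℕ, ∀ x : ℕ, X ≤ x → ∀ V ⊆ range (x + 1),
      (∀ v ∈ V, ∀ w ∈ V, v ≡ w [MOD M]) → θ * near V (lam * Real.log x) ≤ V.card →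
      ∃ r ≤ R, ∃ A : ℕ → Finset ℕ, (∀ j < r, A j ⊆ V \ (range j).biUnion A ∧
        (5 / 18 - ε) * ((V \ (range j).biUnion A).card : ℝ) ≤ (A j).card ∧
        (exceptions k κ η m B x (A j) : ℝ) ≤ ε * ((A j).card : ℝ) ^ (k + 1)) ∧
        ((V \ (range r).biUnion A).card : ℝ) ≤ ε * V.card := by
  obtain ⟨ε₁, hε₁⟩ : ∃ ε₁ : ℝ, ε₁ = min (ε / 2) (1 / 36) := ⟨_, rfl⟩
  have hε₁0 : 0 < ε₁ := by rw [hε₁]; positivity
  have hε₁2 : ε₁ ≤ ε / 2 := by rw [hε₁]; exact min_le_left _ _
  have hε₁3 : ε₁ ≤ 1 / 36 := by rw [hε₁]; exact min_le_right _ _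
  obtain ⟨M, R, hM, h⟩ := Pool.Agent.N646.TP.main k ε₁ hε₁0
  refine ⟨M, R, hM, fun θ lam hθ hlam => ?_⟩
  obtain ⟨κ, hκ, hev⟩ := h θ lam hθ hlam
  refine ⟨κ, hκ, fun m η hη => ?_⟩
  obtain ⟨A₀, hA₀, hfew⟩ := Pool.Agent.P8H13.DS.few k θ lam (ε₁ / 4) (ε / 2) hθ hlam (by positivity) (by positivity)
  obtain ⟨B, x₀, hkey⟩ := key k m κ η A₀ hκ hη hA₀
  obtain ⟨X, hX⟩ := eventually_atTop.1 (hev.and hfew)
  refine ⟨B, max X x₀, fun x hx V hV hVM hVθ => ?_⟩
  obtain ⟨hx1, hx2⟩ := hX x ((le_max_left _ _).trans hx)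
  obtain ⟨r, hr, A, hA, hrem⟩ := hx1 V hV hVM hVθ
  have hex : ∃ r', r' ≤ r ∧ ((V \ (range r').biUnion A).card : ℝ) ≤ ε₁ * V.card := ⟨r, le_rfl, hrem⟩
  obtain ⟨r', hr'⟩ : ∃ r', r' = Nat.find hex := ⟨_, rfl⟩
  have hspec := Nat.find_spec hex
  rw [← hr'] at hspec
  have hmin : ∀ j < r', ε₁ * (V.card : ℝ) < ((V \ (range j).biUnion A).card : ℝ) := by
    intro j hj
    have h1 := Nat.find_min hex (by rw [← hr']; exact hj)
    push Not at h1
    exact h1 (by omega)
  have hVc : (0 : ℝ) ≤ V.card := Nat.cast_nonneg _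
  refine ⟨r', hspec.1.trans hr, A, fun j hj => ?_, ?_⟩
  · obtain ⟨h1, h2, h3⟩ := hA j (lt_of_lt_of_le hj hspec.1)
    have h4 := hmin j hj
    have hrc : (0 : ℝ) ≤ ((V \ (range j).biUnion A).card : ℝ) := Nat.cast_nonneg _
    refine ⟨h1, le_trans (mul_le_mul_of_nonneg_right (by linarith) hrc) h2, ?_⟩
    have hAV : A j ⊆ V := h1.trans sdiff_subset
    have hAc : ε₁ / 4 * (V.card : ℝ) ≤ (A j).card := by
      have h5 : 1 / 4 * ((V \ (range j).biUnion A).card : ℝ) ≤ (A j).card :=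
        le_trans (mul_le_mul_of_nonneg_right (by linarith) hrc) h2
      linarith
    have h5 := hx2 V hV hVθ (A j) hAV hAc
    have hle : exceptions k κ η m B x (A j) ≤ Pool.Agent.N646.TP.exceptions k κ x (A j) +
        ((Fintype.piFinset (fun _ : Fin (k + 1) => A j)).filter (fun y => Function.Injective y ∧
          A₀ < CT (univ.image y))).card := by
      obtain ⟨F1, hF1⟩ : ∃ F1 : Finset (Fin (k + 1) → ℕ), F1 = (Fintype.piFinset (fun _ : Fin (k + 1) => A j)).filter
        (fun y => ¬ (Function.Injective y ∧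
          κ * x / Real.log x ^ (k + 1) ≤ ({n : ℕ | 1 ≤ n ∧ n ≤ x ∧ ∀ i, (n + y i).Prime}.ncard : ℝ))) := ⟨_, rfl⟩
      have hF1c : F1.card = Pool.Agent.N646.TP.exceptions k κ x (A j) := by
        unfold Pool.Agent.N646.TP.exceptions
        rw [← Set.ncard_coe_finset]
        congr 1
        ext y
        rw [hF1, mem_coe, mem_filter, Fintype.mem_piFinset]
        rfl
      rw [← hF1c]
      refine le_trans ?_ (card_union_le _ _)
      unfold exceptions
      rw [← Set.ncard_coe_finset]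
      apply Set.ncard_le_ncard _ (finite_toSet _)
      rintro y ⟨hy1, hy2⟩
      rw [mem_coe, mem_union, hF1, mem_filter, mem_filter, Fintype.mem_piFinset]
      by_cases hy : Function.Injective y ∧
          κ * x / Real.log x ^ (k + 1) ≤ ({n : ℕ | 1 ≤ n ∧ n ≤ x ∧ ∀ i, (n + y i).Prime}.ncard : ℝ)
      · right
        refine ⟨hy1, hy.1, ?_⟩
        by_contra hCT
        rw [not_lt] at hCT
        apply hy2
        refine ⟨hy.1, hkey x ((le_max_right _ _).trans hx) _ ?_ hCT ?_⟩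
        · rw [card_image_of_injective _ hy.1, card_univ, Fintype.card_fin]
        · have e : Translates x (univ.image y) = {n : ℕ | 1 ≤ n ∧ n ≤ x ∧ ∀ i, (n + y i).Prime} := by
            ext n
            unfold Translates
            simp only [Set.mem_ofPred_eq, mem_image, mem_univ, true_and, forall_exists_index,
              forall_apply_eq_imp_iff]
          rw [e, ← mul_div_assoc]
          exact hy.2
      · left
        exact ⟨hy1, hy⟩
    have hle' : (exceptions k κ η m B x (A j) : ℝ) ≤ (Pool.Agent.N646.TP.exceptions k κ x (A j) : ℝ) +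
        ((Fintype.piFinset (fun _ : Fin (k + 1) => A j)).filter (fun y => Function.Injective y ∧
          A₀ < CT (univ.image y))).card := by exact_mod_cast hle
    have hAk : (0 : ℝ) ≤ ((A j).card : ℝ) ^ (k + 1) := by positivity
    nlinarith [mul_le_mul_of_nonneg_right hε₁2 hAk]
  · refine hspec.2.trans ?_
    exact mul_le_mul_of_nonneg_right (by linarith) hVc

open Classical in
/-- (2) almost all admissible sets of `T` shifts at every scale -/
theorem part2 (k T M : ℕ) (hTM : 18 * M < 5 * T) (lam ε : ℝ) (hlam : 0 < lam) (hε : 0 < ε) :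
    ∃ κ : ℝ, 0 < κ ∧ ∀ (m : ℕ) (η : ℝ), 0 < η → ∃ B X : ℕ, ∀ x : ℕ, X ≤ x →
      ∀ Y : ℕ, lam * Real.log x ≤ Y → 100 * Y ≤ x →
      ({H : Finset ℕ | H ⊆ Icc 1 Y ∧ H.card = T ∧ Admissible H ∧ ¬ ∃ F ⊆ H, F.card = M + 1 ∧
        ∀ G ⊆ F, G.card = k + 1 → Szemeredi κ η m B x G}.ncard : ℝ) ≤ ε * (Y : ℝ) ^ T := by
  obtain ⟨κ, hκ, hev⟩ := Pool.Agent.P8H6.Trip.main k T M (by omega) (by
    have : (18 : ℝ) * M < 5 * T := by exact_mod_cast hTM
    linarith) lam (ε / 2) hlam (by positivity)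
  refine ⟨κ, hκ, fun m η hη => ?_⟩
  obtain ⟨A₀, hA₀, hfew⟩ := Pool.Agent.P8H13.DS.few_sets k T lam (ε / 2) hlam (by positivity)
  obtain ⟨B, x₀, hkey⟩ := key k m κ η A₀ hκ hη hA₀
  obtain ⟨X, hX⟩ := eventually_atTop.1 (hev.and hfew)
  refine ⟨B, max X x₀, fun x hx Y hY1 hY2 => ?_⟩
  obtain ⟨hx1, hx2⟩ := hX x ((le_max_left _ _).trans hx)
  have h1 := hx1 Y hY1 hY2
  have h2 := hx2 Y hY1 hY2
  have h3 : {H : Finset ℕ | H ⊆ Icc 1 Y ∧ H.card = T ∧ Admissible H ∧ ¬ ∃ F ⊆ H, F.card = M + 1 ∧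
        ∀ G ⊆ F, G.card = k + 1 → Szemeredi κ η m B x G}.ncard ≤
      (((Icc 1 Y).powersetCard T).filter (fun H => Pool.Agent.P8H6.Trip.IsBad k M κ x H)).card +
      (((Icc 1 Y).powersetCard T).filter (fun H => ∃ G ⊆ H, G.card = k + 1 ∧ A₀ < CT G)).card := by
    refine le_trans ?_ (card_union_le _ _)
    rw [← Set.ncard_coe_finset]
    apply Set.ncard_le_ncard _ (finite_toSet _)
    rintro H ⟨hH1, hH2, hH3, hH4⟩
    rw [mem_coe, mem_union, mem_filter, mem_filter, mem_powersetCard]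
    by_cases hG : ∃ G ⊆ H, G.card = k + 1 ∧ A₀ < CT G
    · exact Or.inr ⟨⟨hH1, hH2⟩, hG⟩
    · left
      refine ⟨⟨hH1, hH2⟩, hH3, ?_⟩
      rintro ⟨F, hF1, hF2, hF3⟩
      apply hH4
      refine ⟨F, hF1, hF2, fun G hG1 hG2 => ?_⟩
      push Not at hG
      refine hkey x ((le_max_right _ _).trans hx) G hG2 (hG G (hG1.trans hF1) hG2) ?_
      refine (hF3 G hG1 hG2).trans (le_of_eq ?_)
      unfold Pool.Agent.P8H6.Trip.cnt
      rw [← Set.ncard_coe_finset]
      congr 2
      ext n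
      rw [mem_coe, mem_filter, mem_Icc, and_assoc]
      rfl
  have h4 : ({H : Finset ℕ | H ⊆ Icc 1 Y ∧ H.card = T ∧ Admissible H ∧ ¬ ∃ F ⊆ H, F.card = M + 1 ∧
        ∀ G ⊆ F, G.card = k + 1 → Szemeredi κ η m B x G}.ncard : ℝ) ≤
      ((((Icc 1 Y).powersetCard T).filter (fun H => Pool.Agent.P8H6.Trip.IsBad k M κ x H)).card : ℝ) +
      ((((Icc 1 Y).powersetCard T).filter (fun H => ∃ G ⊆ H, G.card = k + 1 ∧ A₀ < CT G)).card : ℝ) := by
    exact_mod_cast h3
  linarith

open Classical in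
/-- **(1)** For all `k` and `ε > 0` there are `M` and `R` such that for all `θ, lam > 0` there is `κ > 0` such that for all
`m` and `η > 0` there are `B` and `X` with: for all `x ≥ X` and every set `V ⊆ [0, x]` of integers congruent to each other
modulo `M` with at least `θ near V (lam log x)` elements there are `r ≤ R` and `A 0, ..., A (r - 1)` such that `A j` is
contained in `V \ (A 0 ∪ ... ∪ A (j - 1))` and contains at least the proportion `5 / 18 - ε` of this set, all but at most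
`ε |A j| ^ (k + 1)` of the `y ∈ (A j) ^ (k + 1)` have distinct entries and the property `Szemeredi κ η m B x`, and at
most `ε |V|` elements of `V` are in none of the `A j`.

**(2)** For all `k` and all `M`, `T` with `18 M < 5 T` and all `lam, ε > 0` there is `κ > 0` such that for all `m` and
`η > 0` there are `B` and `X` with: for all `x ≥ X` and every `Y` with `lam log x ≤ Y` and `100 Y ≤ x` at most `ε Y ^ T`
admissible sets `H ⊆ {1, ..., Y}` of `T` elements contain no set `F` of `M + 1` elements all of whose subsets `G` of `k + 1`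
elements have the property `Szemeredi κ η m B x`. -/
theorem result :
    (∀ (k : ℕ) (ε : ℝ), 0 < ε → ∃ M R : ℕ, 1 ≤ M ∧ ∀ θ lam : ℝ, 0 < θ → 0 < lam →
      ∃ κ : ℝ, 0 < κ ∧ ∀ (m : ℕ) (η : ℝ), 0 < η → ∃ B X : ℕ, ∀ x : ℕ, X ≤ x → ∀ V ⊆ range (x + 1),
        (∀ v ∈ V, ∀ w ∈ V, v ≡ w [MOD M]) → θ * near V (lam * Real.log x) ≤ V.card →
        ∃ r ≤ R, ∃ A : ℕ → Finset ℕ, (∀ j < r, A j ⊆ V \ (range j).biUnion A ∧
          (5 / 18 - ε) * ((V \ (range j).biUnion A).card : ℝ) ≤ (A j).card ∧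
          (exceptions k κ η m B x (A j) : ℝ) ≤ ε * ((A j).card : ℝ) ^ (k + 1)) ∧
          ((V \ (range r).biUnion A).card : ℝ) ≤ ε * V.card) ∧
    (∀ k T M : ℕ, 18 * M < 5 * T → ∀ lam ε : ℝ, 0 < lam → 0 < ε →
      ∃ κ : ℝ, 0 < κ ∧ ∀ (m : ℕ) (η : ℝ), 0 < η → ∃ B X : ℕ, ∀ x : ℕ, X ≤ x →
        ∀ Y : ℕ, lam * Real.log x ≤ Y → 100 * Y ≤ x →
        ({H : Finset ℕ | H ⊆ Icc 1 Y ∧ H.card = T ∧ Admissible H ∧ ¬ ∃ F ⊆ H, F.card = M + 1 ∧
          ∀ G ⊆ F, G.card = k + 1 → Szemeredi κ η m B x G}.ncard : ℝ) ≤ ε * (Y : ℝ) ^ T) :=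
  ⟨part1, part2⟩

end Pool.Agent.Results.MP_f686a1_nt.DenseSubsetsOfTranslates
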