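import Pool.Agent.P8H13.UL.All

/-!
# MP_f686a1_nt: almost all members of linear families of sets of shifts, for EVERY large `x`

Let `e_1, ..., e_T` be integer vectors of length `k`, any `k + 1` of which are affinely independent, `k ≤ M` and
`18 M < 5 T`. For a vector `v` of parameters and constants `c_1, ..., c_T` consider the `T` shifts `⟨e_g, v⟩ + c_g`. We
call `v` exceptional (at `x`) if these shifts are different and form an admissible set, and yet there are no `M + 1` of
them any `k + 1` of which, say `a_0, ..., a_k`, have at least `x / (log x) ^ C` positive integers `n ≤ x` such that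
`n + a_0, ..., n + a_k` are all prime.

There are `ℓ`, `C`, `B` and `x₀`, which depend only on `M` and the `e_g`, such that for EVERY `x ≥ x₀` and all `c_g`:

1. every homothetic copy `y + d {0, ..., ℓ - 1}^k` of the cube on which the shifts lie in `[0, x / B]` contains a vector
which is not exceptional;
2. for every `ε > 0` there is `L`, which depends on neither `x` nor the `c_g`, such that in every box of side `H ≥ L` at
most `ε H ^ k` of the vectors for which the shifts lie in `[0, x / B]` are exceptional.

So the shifts can be as large as `x / B`, and the average over the parameters is over boxes of bounded size. For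
`k = M = 1`, `T = 4`: every progression of `ℓ` positive integers up to `x / (18 B)` contains an `m` such that one of
`6 m, 12 m, 18 m` is the difference of at least `x / (log x) ^ C` pairs of primes up to `2 x`. For `k = M = 2`, `T = 8`:
for eight points `e_g` of the plane, no three on a line, all but `ε H ^ 2` of the pairs in every box of side `H ≥ L` have
the property that three of the eight shifts, if they are different and admissible, are as required in Q1.

Q1 asks for one `n` for every admissible set of shifts up to `x ^ (1 - δ)`, even for growing `k`.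

Proof: if all vectors of a homothetic copy of a large cube were exceptional, there would be a smaller copy (by the
density Hales-Jewett theorem of the starting files) on which the good sets of indices are the same, and in it `T` classes
of `K` shifts each, such that every choice of `k + 1` classes and of one shift in each is a translate of the shifts for
an exceptional vector (Cramer's rule). The coloured Maynard-Tao theorem at the scale `x`
(`Pool.Agent.N646.RG.Hit.main`, starting files), which holds for every large `x` and shifts up to `9 x / 10`, gives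
`M + 1` classes and one shift in each which are simultaneously prime often enough.
-/

set_option autoImplicit false

namespace Pool.Agent.Results.MP_f686a1_nt.LinearFamilies

open Finset

/-- the scalar product of two integer vectors -/
def dot {k : ℕ} (a b : Fin k → ℤ) : ℤ := ∑ i, a i * b i

/-- any `k + 1` of the vectors `e g` are affinely independent: the determinant with the rows `(1, e g)` is not `0` -/
def GeneralPosition {T k : ℕ} (e : Fin T → Fin k → ℤ) : Prop :=
  ∀ f : Fin (k + 1) → Fin T, Function.Injective f →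
    (Matrix.of (fun a => (Fin.cons 1 (e (f a)) : Fin (k + 1) → ℤ))).det ≠ 0

/-- the shifts of the vector `v` of parameters -/
def shift {T k : ℕ} (e : Fin T → Fin k → ℤ) (c : Fin T → ℤ) (v : Fin k → ℤ) (g : Fin T) : ℤ := dot (e g) v + c g

/-- at least `x / (log x) ^ C` of the positive integers `n ≤ x` make all `n + a i` prime -/
def Often (C x : ℕ) {k : ℕ} (a : Fin (k + 1) → ℤ) : Prop :=
  (x : ℝ) / Real.log x ^ C ≤ ({n : ℕ | 1 ≤ n ∧ n ≤ x ∧ ∀ i, ((n : ℤ) + a i).toNat.Prime}.ncard : ℝ)

/-- admissible: for every prime some residue class contains none of the numbers -/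
def Admissible {T : ℕ} (a : Fin T → ℤ) : Prop := ∀ p : ℕ, p.Prime → ∃ r : ℤ, ∀ g, ¬ a g ≡ r [ZMOD p]

/-- The vectors `v` for which the shifts are different and admissible, and for which there are NO `M + 1` indices such
that any `k + 1` of the shifts with these indices satisfy `Often C x`. -/
def Exceptional {T k : ℕ} (M C x : ℕ) (e : Fin T → Fin k → ℤ) (c : Fin T → ℤ) : Set (Fin k → ℤ) :=
  {v | Function.Injective (shift e c v) ∧ Admissible (shift e c v) ∧
    ¬ ∃ S : Finset (Fin T), M + 1 ≤ S.card ∧ ∀ f : Fin (k + 1) → Fin T, Function.Injective f → (∀ i, f i ∈ S) →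
      Often C x (fun i => shift e c v (f i))}

/-- the vectors `v` for which all shifts lie between `0` and `x / B` -/
def Bounded {T k : ℕ} (B x : ℕ) (e : Fin T → Fin k → ℤ) (c : Fin T → ℤ) : Set (Fin k → ℤ) :=
  {v | ∀ g, 0 ≤ shift e c v g ∧ B * shift e c v g ≤ x}

theorem often_of {C x k : ℕ} {a : Fin (k + 1) → ℤ} (h : Pool.Agent.P8H13.UL.Many C x a) : Often C x a := by
  classical
  unfold Pool.Agent.P8H13.UL.Many at h
  refine h.trans (le_of_eq ?_)
  rw [← Set.ncard_coe_finset]
  congr 2
  ext n
  rw [mem_coe, mem_filter, mem_Icc, Set.mem_ofPred_eq, and_assoc]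

theorem exc_of {k T M C x : ℕ} {e : Fin T → Fin k → ℤ} {c : Fin T → ℤ} {v : Fin k → ℤ}
    (h : v ∈ Exceptional M C x e c) : Pool.Agent.P8H13.UL.Exc M C x e c v := by
  obtain ⟨h2, h3, h4⟩ := h
  refine ⟨h2, fun p hp => ?_, fun ⟨S, hS, h⟩ => h4 ⟨S, hS, fun f hf hfS => often_of (h f hf hfS)⟩⟩
  obtain ⟨r, hr⟩ := h3 p hp
  refine ⟨-r, fun g hg => hr g ?_⟩
  have h5 : (p : ℤ) ∣ shift e c v g + -r := hg
  have e1 : r - shift e c v g = -(shift e c v g + -r) := by ring
  rw [Int.modEq_iff_dvd, e1]
  exact dvd_neg.2 h5

theorem result (k T M : ℕ) (hk : 1 ≤ k) (hkM : k ≤ M) (hTM : 18 * M < 5 * T)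
    (e : Fin T → Fin k → ℤ) (he : GeneralPosition e) : ∃ ℓ C B x₀ : ℕ, 1 ≤ B ∧
    (∀ x : ℕ, x₀ ≤ x → ∀ (c : Fin T → ℤ) (y : Fin k → ℤ) (d : ℕ), 1 ≤ d →
      (∀ t : Fin k → ℕ, (∀ i, t i < ℓ) → (fun i => y i + t i * d) ∈ Bounded B x e c) →
      ∃ t : Fin k → ℕ, (∀ i, t i < ℓ) ∧ (fun i => y i + t i * d) ∉ Exceptional M C x e c) ∧
    ∀ ε : ℝ, 0 < ε → ∃ L : ℕ, ∀ x : ℕ, x₀ ≤ x → ∀ (c : Fin T → ℤ) (u : Fin k → ℤ) (H : ℕ), L ≤ H →
      (({v ∈ Exceptional M C x e c ∩ Bounded B x e c | ∀ i, u i < v i ∧ v i ≤ u i + H}).ncard : ℝ) ≤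
        ε * (H : ℝ) ^ k := by
  classical
  have hTM' : (18 / 5 : ℝ) * M < T := by
    have h1 : (18 * M : ℝ) < 5 * T := by exact_mod_cast hTM
    linarith
  obtain ⟨ℓ, C, B, x₀, hB, h1, h2⟩ := Pool.Agent.P8H13.UL.both k T M hk hkM hTM' e he
  refine ⟨ℓ, C, B, x₀, hB, fun x hx c y d hd hbd => ?_, fun ε hε => ?_⟩
  · obtain ⟨t, ht, h3⟩ := h1 x hx c y d hd hbd
    exact ⟨t, ht, fun h4 => h3 (exc_of h4)⟩
  · obtain ⟨L, hL⟩ := h2 ε hε
    refine ⟨L, fun x hx c u H hH => le_trans ?_ (hL x hx c u H hH)⟩
    rw [← Set.ncard_coe_finset, Nat.cast_le]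
    refine Set.ncard_le_ncard ?_ (Finset.finite_toSet _)
    rintro v ⟨⟨h3, h4⟩, h5⟩
    rw [mem_coe, mem_filter]
    refine ⟨?_, h4, exc_of h3⟩
    unfold Pool.Agent.P8H13.AD.box
    rw [Fintype.mem_piFinset]
    intro i
    rw [mem_Ioc]
    exact h5 i

end Pool.Agent.Results.MP_f686a1_nt.LinearFamilies
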