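import Pool.Agent.P8H13.RR.Core
import Pool.Agent.P8H13.RR.Few
import Pool.Agent.P8H13.DT.Nrm

/-!
# MP_f686a1_nt: the right order of magnitude for almost all members of linear families, in windows of length `λ log x`

Let `e_1, ..., e_T` be integer vectors of length `k`, any `k + 1` of which are affinely independent, `1 ≤ k ≤ M` and
`18 M < 5 T`. For a vector `v` of parameters and ARBITRARY constants `c_1, ..., c_T` consider the `T` shifts
`⟨e_g, v⟩ + c_g`. Let `x` be large, and consider the vectors `v` of a box of side `H ≥ λ log x`, at an arbitrary place,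
for which the shifts lie in `[0, x / B]` and form an admissible set. All of them but at most `ε H ^ k` have the following
property: the shifts are different, and there are `M + 1` of them such that for any `k + 1` of these, `G` say,

* at least `κ x / (log x) ^ (k + 1)` of the `n ≤ x` make all `n + g`, `g ∈ G`, prime (the right order of magnitude);
* in EVERY subset `U` of the set of these `n` all but a proportion `η` (of the number of these `n`) are first terms of
  progressions of `m` elements of `U` with a difference `≤ (log x) ^ D`.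

For `k = M = 1`, `T = 4`: for all but `ε H` of the `v` in every interval of length `H ≥ λ log x` below `x / (18 B)` one
of `6 v, 12 v, 18 v` is a difference `d` of primes with at least `κ x / (log x) ^ 2` representations `p, p + d`, `p ≤ x`,
and the set of these `p`, like each of its subsets of positive proportion, contains long progressions with a small
difference.

Proof. (Count.) If the exceptional vectors had density `ε` in a box of side `H`, so would those with one and the same
system of good `(k + 1)`-sets of indices, up to a constant. For every vector `u` of `T K` integers `u(g, j) ≤ H / C` the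
density Hales-Jewett theorem (starting files) gives homothetic copies, in this set, of a shape which depends linearly
on `u`, and even `≥ c H ^ k` of them; so one base point `x_0` and one dilation `l` occur for a positive proportion of the
`u`. By Cramer's rule the shifts of the vectors of the copy contain, up to translation, every choice of `k + 1` classes
`g` and one `j` in each from the `T K` shifts `⟨e_g, x_0⟩ + c_g + l P Q u(g, j)`. The coloured Maynard-Tao theorem with
the right order of magnitude for most configurations in windows of length `λ log x` at arbitrary places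
(`Pool.Agent.N646.RG.sHITM2`, starting files) gives a contradiction. (Subsets.) The relative Szemerédi theorem with
small differences, uniform in the forms (`Pool.Agent.Y840.PT`, starting files), and the average of the singular
series over linear families in short windows (`P8H13.RR.few_lin`).
-/

set_option autoImplicit false

namespace Pool.Agent.Results.MP_f686a1_nt.RightOrderFamilies

open Finset Filter
open Pool.Agent.H387R2.Uni (CT)

/-- the scalar product of two integer vectors -/
def dot {k : ℕ} (a b : Fin k → ℤ) : ℤ := ∑ i, a i * b i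

/-- any `k + 1` of the vectors `e g` are affinely independent: the determinant with the rows `(1, e g)` is not `0` -/
def GeneralPosition {T k : ℕ} (e : Fin T → Fin k → ℤ) : Prop :=
  ∀ f : Fin (k + 1) → Fin T, Function.Injective f →
    (Matrix.of (fun a => (Fin.cons 1 (e (f a)) : Fin (k + 1) → ℤ))).det ≠ 0

/-- the shifts of the vector `v` of parameters -/
def shift {T k : ℕ} (e : Fin T → Fin k → ℤ) (c : Fin T → ℤ) (v : Fin k → ℤ) (g : Fin T) : ℤ := dot (e g) v + c g

/-- admissible: for every prime some residue class contains none of the numbers -/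
def Admissible {T : ℕ} (a : Fin T → ℤ) : Prop := ∀ p : ℕ, p.Prime → ∃ r : ℤ, ∀ g, ¬ a g ≡ r [ZMOD p]

/-- the integers `1 ≤ n ≤ x` for which all `n + g`, `g ∈ G`, are prime -/
def Translates (x : ℕ) (G : Finset ℕ) : Set ℕ := {n : ℕ | 1 ≤ n ∧ n ≤ x ∧ ∀ g ∈ G, (n + g).Prime}

/-- the first terms `a` of progressions `a, a + d, ..., a + (m - 1) d` in `U` with a difference `1 ≤ d ≤ Q` -/
def First (m : ℕ) (Q : ℝ) (U : Set ℕ) : Set ℕ :=
  {a | a ∈ U ∧ ∃ d : ℕ, 1 ≤ d ∧ (d : ℝ) ≤ Q ∧ ∀ j < m, a + j * d ∈ U}

/-- `Translates x G` has at least `κ x / (log x) ^ |G|` elements, and in every subset `U` of it all but at most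
`η |Translates x G|` elements are first terms of `m`-term progressions in `U` with a difference `≤ (log x) ^ B`. -/
def Szemeredi (κ η : ℝ) (m B x : ℕ) (G : Finset ℕ) : Prop :=
  κ * (x / Real.log x ^ G.card) ≤ ((Translates x G).ncard : ℝ) ∧
    ∀ U ⊆ Translates x G, ((U \ First m (Real.log x ^ B) U).ncard : ℝ) ≤ η * ((Translates x G).ncard : ℝ)

/-- The vectors `v` for which the shifts are admissible, but for which it is NOT true that they are different and that
there are `M + 1` indices such that any `k + 1` of the shifts with these indices form a set with the property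
`Szemeredi κ η m D x`. -/
def Exceptional {T k : ℕ} (M : ℕ) (κ η : ℝ) (m D x : ℕ) (e : Fin T → Fin k → ℤ) (c : Fin T → ℤ) : Set (Fin k → ℤ) :=
  {v | Admissible (shift e c v) ∧ ¬ (Function.Injective (shift e c v) ∧
    ∃ S : Finset (Fin T), M + 1 ≤ S.card ∧ ∀ F ⊆ S, F.card = k + 1 →
      Szemeredi κ η m D x (F.image (fun g => (shift e c v g).toNat)))}

/-- the vectors `v` for which all shifts lie between `0` and `x / B` -/
def Bounded {T k : ℕ} (B x : ℕ) (e : Fin T → Fin k → ℤ) (c : Fin T → ℤ) : Set (Fin k → ℤ) :=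
  {v | ∀ g, 0 ≤ shift e c v g ∧ B * shift e c v g ≤ x}

theorem translates_finite (x : ℕ) (G : Finset ℕ) : (Translates x G).Finite :=
  (Set.finite_le_nat x).subset fun _ hn => hn.2.1

/-- For ALL sets of `k + 1` shifts: few elements of a set of prime translates begin no progression in it. -/
theorem part0 (k m : ℕ) (ρ : ℝ) (hρ : 0 < ρ) : ∃ B x₀ : ℕ, ∀ x : ℕ, x₀ ≤ x → ∀ G : Finset ℕ, G.card = k + 1 →
    ∀ U ⊆ Translates x G, ((U \ First m (Real.log x ^ B) U).ncard : ℝ) ≤
      ρ * ((CT G + 1) * (x / Real.log x ^ (k + 1))) := by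
  classical
  obtain ⟨B, x₀, h⟩ := Pool.Agent.P8H13.CA.one_U (k + 1) (m + 1) ρ hρ
  have hev : ∀ᶠ x : ℕ in atTop, ((k + 1 : ℕ) : ℝ) ≤ ρ * ((x : ℝ) / Real.log x ^ (k + 1)) := by
    have h1 : Tendsto (fun x : ℝ => x / Real.log x ^ (k + 1)) atTop atTop := by
      have h2 := Pool.Agent.Y840.PT.sqrt_small (k + 1) 1 one_pos
      refine tendsto_atTop_mono' atTop ?_ (Real.tendsto_sqrt_atTop)
      filter_upwards [h2] with x hx
      rw [one_mul] at hx
      exact hx
    exact ((h1.comp (tendsto_natCast_atTop_atTop (R := ℝ))).const_mul_atTop hρ).eventually_ge_atTop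
      ((k + 1 : ℕ) : ℝ)
  obtain ⟨x₁, hx₁⟩ := eventually_atTop.1 hev
  refine ⟨B, max ⌈x₀⌉₊ x₁, fun x hx G hG U hU => ?_⟩
  have hxa : x₀ ≤ x := (Nat.le_ceil _).trans (by exact_mod_cast (le_max_left _ _).trans hx)
  have hxb := hx₁ x ((le_max_right _ _).trans hx)
  have hfin : (U \ First m (Real.log x ^ B) U).Finite :=
    ((translates_finite x G).subset hU).subset Set.sdiff_subset
  obtain ⟨V, hV⟩ : ∃ V : Finset ℕ, V = hfin.toFinset := ⟨_, rfl⟩
  have hVmem : ∀ n ∈ V, n ∈ U ∧ n ∉ First m (Real.log x ^ B) U := by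
    intro n hn
    rw [hV, Set.Finite.mem_toFinset] at hn
    exact hn
  have hcard : (U \ First m (Real.log x ^ B) U).ncard = V.card := by
    rw [Set.ncard_eq_toFinset_card _ hfin, hV]
  have hVP : V ⊆ Pool.Agent.Y840.PT.Pts (x : ℝ) G := by
    intro n hn
    obtain ⟨h1, h2, h3⟩ := hU (hVmem n hn).1
    unfold Pool.Agent.Y840.PT.Pts
    rw [mem_filter, mem_Icc, Nat.floor_natCast]
    exact ⟨⟨h1, h2⟩, h3⟩
  rw [hcard]
  have hxq : (0 : ℝ) ≤ (x : ℝ) / Real.log x ^ (k + 1) := by positivity
  by_contra hlt
  rw [not_le] at hlt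
  by_cases hadm : Pool.Agent.H387R2.Uni.Adm G
  · have hCT := (Pool.Agent.TH891.SG.CT_pos_iff G).2 hadm
    obtain ⟨b, D, hD1, hD2, hD3⟩ := h x hxa G hG hCT V hVP (by
      refine le_trans ?_ hlt.le
      refine mul_le_mul_of_nonneg_left ?_ hρ.le
      exact mul_le_mul_of_nonneg_right (by linarith) hxq)
    have h5 := hD3 0 (by omega)
    rw [zero_mul, add_zero] at h5
    obtain ⟨h6, h7⟩ := hVmem b h5
    exact h7 ⟨h6, D, hD1, hD2, fun j hj => (hVmem _ (hD3 j (by omega))).1⟩
  · have h1 := (card_le_card hVP).trans (Pool.Agent.P8H13.DT.Pts_small hadm (x : ℝ))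
    rw [hG] at h1
    have h2 : (V.card : ℝ) ≤ ((k + 1 : ℕ) : ℝ) := by exact_mod_cast h1
    have h3 : 0 ≤ CT G := Pool.Agent.H387R2.Uni.CT_nonneg _
    have h4 : ρ * ((x : ℝ) / Real.log x ^ (k + 1)) ≤ ρ * ((CT G + 1) * (x / Real.log x ^ (k + 1))) := by
      refine mul_le_mul_of_nonneg_left ?_ hρ.le
      nlinarith
    linarith

/-- the property `Szemeredi` for all sets with a bounded singular series and a number of prime translates of the right
order of magnitude -/
theorem key (k m : ℕ) (κ η A : ℝ) (hκ : 0 < κ) (hη : 0 < η) (hA : 0 < A) : ∃ B x₀ : ℕ, ∀ x : ℕ, x₀ ≤ x →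
    ∀ G : Finset ℕ, G.card = k + 1 → CT G ≤ A → κ * (x / Real.log x ^ (k + 1)) ≤ ((Translates x G).ncard : ℝ) →
    Szemeredi κ η m B x G := by
  obtain ⟨B, x₀, h⟩ := part0 k m (η * κ / (A + 1)) (by positivity)
  refine ⟨B, x₀, fun x hx G hG hCT hcount => ⟨by rw [hG]; exact hcount, fun U hU => ?_⟩⟩
  refine (h x hx G hG U hU).trans ?_
  have hq : (0 : ℝ) ≤ (x : ℝ) / Real.log x ^ (k + 1) := by positivity
  calc η * κ / (A + 1) * ((CT G + 1) * (x / Real.log x ^ (k + 1)))
      ≤ η * κ / (A + 1) * ((A + 1) * (x / Real.log x ^ (k + 1))) := by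
        refine mul_le_mul_of_nonneg_left ?_ (by positivity)
        exact mul_le_mul_of_nonneg_right (by linarith) hq
    _ = η * (κ * (x / Real.log x ^ (k + 1))) := by field_simp
    _ ≤ _ := mul_le_mul_of_nonneg_left hcount hη.le

theorem result (k T M : ℕ) (hk : 1 ≤ k) (hkM : k ≤ M) (hTM : 18 * M < 5 * T)
    (e : Fin T → Fin k → ℤ) (he : GeneralPosition e) : ∃ B : ℕ, 1 ≤ B ∧ ∀ lam ε : ℝ, 0 < lam → 0 < ε →
    ∃ κ : ℝ, 0 < κ ∧ ∀ (m : ℕ) (η : ℝ), 0 < η → ∃ D X : ℕ, ∀ x : ℕ, X ≤ x →
      ∀ (c : Fin T → ℤ) (u : Fin k → ℤ) (H : ℕ), lam * Real.log x ≤ H → B * H ≤ x →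
      (({v ∈ Exceptional M κ η m D x e c ∩ Bounded B x e c | ∀ i, u i < v i ∧ v i ≤ u i + H}).ncard : ℝ) ≤
        ε * (H : ℝ) ^ k := by
  classical
  have hTM' : (18 / 5 : ℝ) * M < T := by
    have h1 : (18 * M : ℝ) < 5 * T := by exact_mod_cast hTM
    linarith
  have hkT : k + 1 ≤ T := by omega
  obtain ⟨B, hB, h⟩ := Pool.Agent.P8H13.RR.core k T M (by omega) hTM' e he
  refine ⟨B, hB, fun lam ε hlam hε => ?_⟩
  obtain ⟨κ, hκ, hev⟩ := h lam (ε / 3) hlam (by positivity)
  refine ⟨κ, hκ, fun m η hη => ?_⟩
  obtain ⟨A₀, hA₀, hfew⟩ := Pool.Agent.P8H13.RR.few_lin hk hkT e he lam (ε / 3) hlam (by positivity)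
  obtain ⟨H₀, hH₀⟩ := Pool.Agent.P8H13.RR.coinc hk hkT e he (ε / 3) (by positivity)
  obtain ⟨D, x₀, hkey⟩ := key k m κ η A₀ hκ hη hA₀
  have hlog : Tendsto (fun x : ℕ => lam * Real.log (x : ℝ)) atTop atTop :=
    (Real.tendsto_log_atTop.comp tendsto_natCast_atTop_atTop).const_mul_atTop hlam
  obtain ⟨X, hX⟩ := eventually_atTop.1 ((hev.and hfew).and (hlog.eventually_ge_atTop ((H₀ : ℝ) + 1)))
  refine ⟨D, max X x₀, fun x hx c u H hH1 hH2 => ?_⟩
  obtain ⟨⟨hx1, hx2⟩, hx3⟩ := hX x ((le_max_left _ _).trans hx)
  have hHH : H₀ ≤ H := by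
    have h1 : (H₀ : ℝ) ≤ H := by linarith
    exact_mod_cast h1
  have h1 := hx1 c u H hH1 hH2
  have h2 := hx2 c u H hH1
  have h3 := hH₀ H hHH c u
  have hsub : {v ∈ Exceptional M κ η m D x e c ∩ Bounded B x e c | ∀ i, u i < v i ∧ v i ≤ u i + H}.ncard ≤
      ((Pool.Agent.P8H13.AD.box u H).filter (fun v => Pool.Agent.P8H13.UL.Bd B x e c v ∧
        Pool.Agent.P8H13.RR.ExcR M κ x e c v)).card +
      (((Pool.Agent.P8H13.AD.box u H).filter (fun v => (∀ g, 0 ≤ Pool.Agent.P8H13.UL.val e c v g ∧
        Pool.Agent.P8H13.UL.val e c v g ≤ x) ∧ Function.Injective (Pool.Agent.P8H13.UL.val e c v) ∧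
        ∃ f : Fin (k + 1) → Fin T, Function.Injective f ∧
          A₀ < CT (univ.image (fun a => (Pool.Agent.P8H13.UL.val e c v (f a)).toNat)))).card +
      ((Pool.Agent.P8H13.AD.box u H).filter (fun v => ¬ Function.Injective (Pool.Agent.P8H13.UL.val e c v))).card) := by
    refine le_trans ?_ ((Nat.add_le_add_left (card_union_le _ _) _).trans' (card_union_le _ _))
    rw [← Set.ncard_coe_finset]
    refine Set.ncard_le_ncard ?_ (Finset.finite_toSet _)
    rintro v ⟨⟨⟨hv1, hv2⟩, hv3⟩, hv4⟩
    have hbox : v ∈ Pool.Agent.P8H13.AD.box u H := by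
      unfold Pool.Agent.P8H13.AD.box
      rw [Fintype.mem_piFinset]
      intro i
      rw [mem_Ioc]
      exact hv4 i
    rw [mem_coe, mem_union, mem_union]
    by_cases hinj : Function.Injective (Pool.Agent.P8H13.UL.val e c v)
    swap
    · exact Or.inr (Or.inr (mem_filter.2 ⟨hbox, hinj⟩))
    by_cases hbig : ∃ f : Fin (k + 1) → Fin T, Function.Injective f ∧
          A₀ < CT (univ.image (fun a => (Pool.Agent.P8H13.UL.val e c v (f a)).toNat))
    · refine Or.inr (Or.inl (mem_filter.2 ⟨hbox, fun g => ⟨(hv3 g).1, ?_⟩, hinj, hbig⟩))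
      have h4 := (hv3 g).2
      have h5 := (hv3 g).1
      have h6 : (1 : ℤ) ≤ B := by exact_mod_cast hB
      have h7 : shift e c v g ≤ B * shift e c v g := by nlinarith
      exact h7.trans h4
    refine Or.inl (mem_filter.2 ⟨hbox, hv3, fun p hp => ?_, ?_⟩)
    · obtain ⟨r, hr⟩ := hv1 p hp
      refine ⟨-r, fun g hg => hr g ?_⟩
      have h5 : (p : ℤ) ∣ shift e c v g + -r := hg
      have e1 : r - shift e c v g = -(shift e c v g + -r) := by ring
      rw [Int.modEq_iff_dvd, e1]
      exact dvd_neg.2 h5
    · rintro ⟨S, hS1, hS2⟩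
      apply hv2
      refine ⟨hinj, S, hS1, fun F hF1 hF2 => ?_⟩
      obtain ⟨f, hf⟩ : ∃ f : Fin (k + 1) → Fin T, f = fun i => (F.orderIsoOfFin hF2 i : Fin T) := ⟨_, rfl⟩
      have hfinj : Function.Injective f := by
        intro i j hij
        rw [hf] at hij
        exact (F.orderIsoOfFin hF2).injective (Subtype.ext hij)
      have hfF : ∀ i, f i ∈ F := by
        intro i
        rw [hf]
        exact (F.orderIsoOfFin hF2 i).2
      have hfim : univ.image f = F := by
        apply eq_of_subset_of_card_le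
        · intro g hg
          obtain ⟨i, -, rfl⟩ := mem_image.1 hg
          exact hfF i
        · rw [hF2, card_image_of_injective _ hfinj, card_univ, Fintype.card_fin]
      have himg : univ.image (fun a => (Pool.Agent.P8H13.UL.val e c v (f a)).toNat) =
          F.image (fun g => (shift e c v g).toNat) := by
        rw [← hfim, image_image]
        rfl
      have hRight := hS2 f hfinj (fun i => hF1 (hfF i))
      have hcardG : (F.image (fun g => (shift e c v g).toNat)).card = k + 1 := by
        rw [card_image_of_injective, hF2]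
        intro g h hgh
        have h4 := (hv3 g).1
        have h5 := (hv3 h).1
        have h6 : (shift e c v g).toNat = (shift e c v h).toNat := hgh
        exact hinj (show shift e c v g = shift e c v h by omega)
      refine hkey x ((le_max_right _ _).trans hx) _ hcardG ?_ ?_
      · rw [← himg]
        by_contra hlt
        exact hbig ⟨f, hfinj, not_le.1 hlt⟩
      · unfold Pool.Agent.P8H13.RR.Right at hRight
        refine hRight.trans (le_of_eq ?_)
        rw [← Set.ncard_coe_finset]
        congr 2
        ext n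
        rw [mem_coe, mem_filter, mem_Icc, and_assoc]
        unfold Translates
        rw [Set.mem_ofPred_eq, ← himg]
        refine and_congr_right fun _ => and_congr_right fun _ => ?_
        constructor
        · intro h4 g hg
          obtain ⟨i, -, rfl⟩ := mem_image.1 hg
          have h5 := h4 i
          have h6 := (hv3 (f i)).1
          have h7 : 0 ≤ Pool.Agent.P8H13.UL.val e c v (f i) := h6
          have h8 : ((n : ℤ) + Pool.Agent.P8H13.UL.val e c v (f i)).toNat =
              n + (Pool.Agent.P8H13.UL.val e c v (f i)).toNat := by omega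
          rwa [h8] at h5
        · intro h4 i
          have h5 := h4 _ (mem_image.2 ⟨i, mem_univ _, rfl⟩)
          have h6 := (hv3 (f i)).1
          have h7 : 0 ≤ Pool.Agent.P8H13.UL.val e c v (f i) := h6
          have h8 : ((n : ℤ) + Pool.Agent.P8H13.UL.val e c v (f i)).toNat =
              n + (Pool.Agent.P8H13.UL.val e c v (f i)).toNat := by omega
          rw [h8]
          exact h5
  have hsub' : ({v ∈ Exceptional M κ η m D x e c ∩ Bounded B x e c | ∀ i, u i < v i ∧ v i ≤ u i + H}.ncard : ℝ) ≤
      (((Pool.Agent.P8H13.AD.box u H).filter (fun v => Pool.Agent.P8H13.UL.Bd B x e c v ∧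
        Pool.Agent.P8H13.RR.ExcR M κ x e c v)).card : ℝ) +
      ((((Pool.Agent.P8H13.AD.box u H).filter (fun v => (∀ g, 0 ≤ Pool.Agent.P8H13.UL.val e c v g ∧
        Pool.Agent.P8H13.UL.val e c v g ≤ x) ∧ Function.Injective (Pool.Agent.P8H13.UL.val e c v) ∧
        ∃ f : Fin (k + 1) → Fin T, Function.Injective f ∧
          A₀ < CT (univ.image (fun a => (Pool.Agent.P8H13.UL.val e c v (f a)).toNat)))).card : ℝ) +
      (((Pool.Agent.P8H13.AD.box u H).filter (fun v => ¬ Function.Injective (Pool.Agent.P8H13.UL.val e c v))).card : ℝ)) := by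
    exact_mod_cast hsub
  linarith

end Pool.Agent.Results.MP_f686a1_nt.RightOrderFamilies
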